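import Mathlib

/-!
# Vectors which are approximable to every order have Hausdorff dimension zero
-/

set_option autoImplicit false

open Metric Set Filter Topology MeasureTheory
open scoped ENNReal NNReal

namespace Pool.Agent.V11270.HdL

theorem ediam_closedBall_le' {X : Type*} [PseudoMetricSpace X] (x : X) (r : ℝ) :
    ediam (closedBall x r) ≤ ENNReal.ofReal (2 * r) := by
  apply ediam_le
  intro y hy z hz
  rw [edist_dist]
  apply ENNReal.ofReal_le_ofReal
  have h1 := dist_triangle_right y z x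
  have h2 := mem_closedBall.mp hy
  have h3 := mem_closedBall.mp hz
  linarith

/-- The vectors approximable to every order by infinitely many denominators. -/
def SL (m : ℕ) : Set (Fin m → ℝ) :=
  {x | ∀ N Q : ℕ, ∃ q : ℕ, Q + 2 ≤ q ∧ ∃ p : Fin m → ℤ,
    ‖(q : ℝ) • x - fun i => (p i : ℝ)‖ < 1 / (q : ℝ) ^ N}

theorem dimH_SL_inter (m R : ℕ) {s : ℝ≥0} (hs : 0 < s) :
    dimH (SL m ∩ closedBall 0 (R : ℝ)) ≤ s := by
  apply dimH_le_of_hausdorffMeasure_ne_top
  have hsR : (0 : ℝ) < s := by exact_mod_cast hs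
  -- the exponent
  obtain ⟨N, hN⟩ := exists_nat_gt ((m + 2 : ℝ) / s)
  rw [div_lt_iff₀ hsR] at hN
  set C : ℝ := (2 * R + 3) ^ m * 2 ^ (s : ℝ) with hC
  have hC0 : 0 ≤ C := by positivity
  -- the covers
  let F : ℕ → Finset (Fin m → ℤ) := fun q =>
    Fintype.piFinset fun _ => Finset.Icc (-(((R + 1) * q : ℕ) : ℤ)) (((R + 1) * q : ℕ) : ℤ)
  let ι : ℕ → Type := fun Q => Σ k : ℕ, F (k + (Q + 2))
  let t : ∀ Q : ℕ, ι Q → Set (Fin m → ℝ) := fun Q a =>
    closedBall (fun i => ((a.2 : Fin m → ℤ) i : ℝ) / ((a.1 + (Q + 2) : ℕ) : ℝ))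
      (1 / ((a.1 + (Q + 2) : ℕ) : ℝ) ^ (N + 1))
  have hdiam : ∀ Q (a : ι Q), ediam (t Q a) ≤
      ENNReal.ofReal (2 / ((a.1 + (Q + 2) : ℕ) : ℝ) ^ (N + 1)) := by
    intro Q a
    refine (ediam_closedBall_le' _ _).trans (le_of_eq ?_)
    congr 1
    ring
  have hcard : ∀ q : ℕ, 1 ≤ q → ((F q).card : ℝ) ≤ ((2 * R + 3) * q) ^ m := by
    intro q hq
    have hq1 : (1 : ℝ) ≤ q := by exact_mod_cast hq
    show (((Fintype.piFinset fun _ : Fin m =>
      Finset.Icc (-(((R + 1) * q : ℕ) : ℤ)) (((R + 1) * q : ℕ) : ℤ)).card : ℕ) : ℝ) ≤ _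
    rw [Fintype.card_piFinset]
    simp only [Int.card_Icc, Finset.prod_const, Finset.card_univ, Fintype.card_fin]
    have h1 : ((((R + 1) * q : ℕ) : ℤ) + 1 - -(((R + 1) * q : ℕ) : ℤ)).toNat =
        2 * ((R + 1) * q) + 1 := by omega
    rw [h1]
    push_cast
    apply pow_le_pow_left₀ (by positivity)
    nlinarith
  -- the bound for the sums
  have hsum : ∀ Q, ∑' a : ι Q, ediam (t Q a) ^ (s : ℝ) ≤
      ∑' k : ℕ, ENNReal.ofReal (C * (1 / (((k + Q : ℕ) : ℝ) + 1) ^ 2)) := by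
    intro Q
    rw [ENNReal.tsum_sigma']
    refine ENNReal.tsum_le_tsum fun k => ?_
    set q : ℕ := k + (Q + 2) with hq
    have hq1 : 1 ≤ q := by omega
    have hq1R : (1 : ℝ) ≤ q := by exact_mod_cast hq1
    have hqpos : (0 : ℝ) < q := by linarith
    have hstep : ∀ b : F q, ediam (t Q ⟨k, b⟩) ^ (s : ℝ) ≤
        ENNReal.ofReal (2 ^ (s : ℝ) * (1 / (q : ℝ) ^ (m + 2))) := by
      intro b
      have h1 := ENNReal.rpow_le_rpow (hdiam Q ⟨k, b⟩) hsR.le
      refine h1.trans ?_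
      rw [ENNReal.ofReal_rpow_of_nonneg (by positivity) hsR.le]
      apply ENNReal.ofReal_le_ofReal
      show (2 / (q : ℝ) ^ (N + 1)) ^ (s : ℝ) ≤ _
      rw [Real.div_rpow (by norm_num) (by positivity), div_eq_mul_one_div]
      apply mul_le_mul_of_nonneg_left _ (by positivity)
      apply one_div_le_one_div_of_le (by positivity)
      rw [← Real.rpow_natCast, ← Real.rpow_natCast, ← Real.rpow_mul hqpos.le]
      apply Real.rpow_le_rpow_of_exponent_le hq1R
      push_cast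
      nlinarith
    rw [tsum_fintype]
    refine (Finset.sum_le_sum fun b _ => hstep b).trans ?_
    rw [Finset.sum_const, nsmul_eq_mul, Finset.card_univ, Fintype.card_coe]
    have h2 : ((F q).card : ℝ≥0∞) * ENNReal.ofReal (2 ^ (s : ℝ) * (1 / (q : ℝ) ^ (m + 2))) =
        ENNReal.ofReal ((F q).card * (2 ^ (s : ℝ) * (1 / (q : ℝ) ^ (m + 2)))) := by
      rw [ENNReal.ofReal_mul (p := ((F q).card : ℝ)) (by positivity), ENNReal.ofReal_natCast]
    rw [h2]
    apply ENNReal.ofReal_le_ofReal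
    have hkQ : (0 : ℝ) ≤ ((k + Q : ℕ) : ℝ) := Nat.cast_nonneg _
    calc ((F q).card : ℝ) * (2 ^ (s : ℝ) * (1 / (q : ℝ) ^ (m + 2)))
        ≤ ((2 * R + 3) * q) ^ m * (2 ^ (s : ℝ) * (1 / (q : ℝ) ^ (m + 2))) :=
          mul_le_mul_of_nonneg_right (hcard q hq1) (by positivity)
      _ = C * (1 / (q : ℝ) ^ 2) := by
          rw [hC, mul_pow, pow_add]
          field_simp
      _ ≤ C * (1 / (((k + Q : ℕ) : ℝ) + 1) ^ 2) := by
          apply mul_le_mul_of_nonneg_left _ hC0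
          apply one_div_le_one_div_of_le (by positivity)
          apply pow_le_pow_left₀ (by positivity)
          exact_mod_cast (by omega : k + Q + 1 ≤ q)
  -- the sums tend to zero
  have hfin : ∑' k : ℕ, ENNReal.ofReal (C * (1 / ((k : ℝ) + 1) ^ 2)) ≠ ∞ := by
    have h1 : Summable fun k : ℕ => C * (1 / ((k : ℝ) + 1) ^ 2) := by
      apply Summable.mul_left
      have h2 : Summable fun k : ℕ => 1 / ((k : ℝ)) ^ 2 :=
        Real.summable_one_div_nat_pow.mpr (by norm_num)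
      have h3 := (summable_nat_add_iff 1).mpr h2
      simpa using h3
    exact h1.tsum_ofReal_ne_top
  have hlim := ENNReal.tendsto_sum_nat_add
    (fun k : ℕ => ENNReal.ofReal (C * (1 / ((k : ℝ) + 1) ^ 2))) hfin
  -- the covering property
  have hcover : ∀ Q, SL m ∩ closedBall 0 (R : ℝ) ⊆ ⋃ a : ι Q, t Q a := by
    rintro Q x ⟨hx, hxR⟩
    obtain ⟨q, hq, p, hp⟩ := hx N Q
    have hq1 : (1 : ℝ) ≤ q := by exact_mod_cast (by omega : 1 ≤ q)
    have hqpos : (0 : ℝ) < q := by linarith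
    have hp1 : ‖(q : ℝ) • x - fun i => (p i : ℝ)‖ ≤ 1 :=
      hp.le.trans (by
        rw [div_le_one (by positivity)]
        exact one_le_pow₀ hq1)
    have hxn : ‖x‖ ≤ R := by simpa using hxR
    have hpF : p ∈ F q := by
      show p ∈ Fintype.piFinset fun _ : Fin m =>
        Finset.Icc (-(((R + 1) * q : ℕ) : ℤ)) (((R + 1) * q : ℕ) : ℤ)
      rw [Fintype.mem_piFinset]
      intro i
      rw [Finset.mem_Icc, ← abs_le]
      have h1 := (norm_le_pi_norm ((q : ℝ) • x - fun i => (p i : ℝ)) i).trans hp1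
      have h2 := (norm_le_pi_norm x i).trans hxn
      rw [Real.norm_eq_abs] at h1 h2
      have h3 : |(p i : ℝ)| ≤ (R + 1) * q := by
        have h4 : (p i : ℝ) = q * x i - (q * x i - p i) := by ring
        have h5 : |(q : ℝ) * x i - p i| ≤ 1 := h1
        have h6 : |(q : ℝ) * x i| ≤ q * R := by
          rw [abs_mul, abs_of_pos hqpos]
          exact mul_le_mul_of_nonneg_left h2 hqpos.le
        calc |(p i : ℝ)| = |(q : ℝ) * x i - (q * x i - p i)| := by rw [← h4]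
          _ ≤ |(q : ℝ) * x i| + |(q : ℝ) * x i - p i| := abs_sub _ _
          _ ≤ (R + 1) * q := by nlinarith
      have h7 : ((|p i| : ℤ) : ℝ) ≤ (((R + 1) * q : ℕ) : ℝ) := by
        push_cast
        exact h3
      exact_mod_cast h7
    rw [Set.mem_iUnion]
    obtain ⟨k, rfl⟩ : ∃ k, q = k + (Q + 2) := ⟨q - (Q + 2), by omega⟩
    refine ⟨⟨k, ⟨p, hpF⟩⟩, ?_⟩
    show x ∈ closedBall (fun i => (p i : ℝ) / ((k + (Q + 2) : ℕ) : ℝ))
      (1 / ((k + (Q + 2) : ℕ) : ℝ) ^ (N + 1))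
    set q : ℕ := k + (Q + 2) with hq'
    rw [mem_closedBall, dist_pi_le_iff (by positivity)]
    intro i
    rw [Real.dist_eq]
    have h1 : |(q : ℝ) * x i - p i| ≤ 1 / (q : ℝ) ^ N :=
      (norm_le_pi_norm ((q : ℝ) • x - fun i => (p i : ℝ)) i).trans hp.le
    have h2 : x i - (p i : ℝ) / q = (q * x i - p i) / q := by field_simp
    rw [h2, abs_div, abs_of_pos hqpos, pow_succ, ← div_div]
    exact div_le_div_of_nonneg_right h1 hqpos.le
  -- conclusion
  have hr : Tendsto (fun Q : ℕ => ENNReal.ofReal (2 / ((Q : ℝ) + 1))) atTop (𝓝 0) := by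
    rw [← ENNReal.ofReal_zero]
    apply ENNReal.tendsto_ofReal
    have h1 := (tendsto_one_div_add_atTop_nhds_zero_nat (𝕜 := ℝ)).const_mul 2
    simpa [div_eq_mul_inv] using h1
  have hle := MeasureTheory.Measure.hausdorffMeasure_le_liminf_tsum (s : ℝ)
    (SL m ∩ closedBall 0 (R : ℝ)) (l := atTop) (fun Q : ℕ => ENNReal.ofReal (2 / ((Q : ℝ) + 1))) hr
    t (Filter.Eventually.of_forall fun Q a => by
      refine (hdiam Q a).trans (ENNReal.ofReal_le_ofReal ?_)
      apply div_le_div_of_nonneg_left (by norm_num) (by positivity)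
      have h1 : (1 : ℝ) ≤ ((a.1 + (Q + 2) : ℕ) : ℝ) := by exact_mod_cast (by omega)
      calc (Q : ℝ) + 1 ≤ ((a.1 + (Q + 2) : ℕ) : ℝ) := by
            exact_mod_cast (by omega : Q + 1 ≤ a.1 + (Q + 2))
        _ ≤ ((a.1 + (Q + 2) : ℕ) : ℝ) ^ (N + 1) := le_self_pow₀ h1 (by omega))
    (Filter.Eventually.of_forall hcover)
  have hle2 : liminf (fun Q => ∑' a : ι Q, ediam (t Q a) ^ (s : ℝ)) atTop ≤
      liminf (fun Q : ℕ => ∑' k : ℕ,
        ENNReal.ofReal (C * (1 / (((k + Q : ℕ) : ℝ) + 1) ^ 2))) atTop :=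
    liminf_le_liminf (Filter.Eventually.of_forall hsum)
  rw [hlim.liminf_eq] at hle2
  exact ne_top_of_le_ne_top (by norm_num) (hle.trans hle2)

theorem dimH_SL (m : ℕ) : dimH (SL m) = 0 := by
  have h1 : SL m = ⋃ R : ℕ, SL m ∩ closedBall 0 (R : ℝ) := by
    rw [← Set.inter_iUnion]
    refine (Set.inter_eq_left.mpr ?_).symm
    intro x _
    rw [Set.mem_iUnion]
    obtain ⟨R, hR⟩ := exists_nat_ge ‖x‖
    exact ⟨R, by simpa using hR⟩
  rw [h1, dimH_iUnion]
  refine le_antisymm (iSup_le fun R => ?_) bot_le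
  refine ENNReal.le_of_forall_pos_le_add fun s hs _ => ?_
  rw [zero_add]
  exact dimH_SL_inter m R hs

end Pool.Agent.V11270.HdL
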