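import Pool.Agent.Helper206.BoxS.IoD

/-!
# Invariance of domain for finite-dimensional normed spaces
-/

set_option autoImplicit false

open Metric Set Filter Topology Module

namespace Pool.Agent.V11270.HdL

theorem isOpen_image {V W : Type*} [NormedAddCommGroup V] [NormedSpace ℝ V]
    [FiniteDimensional ℝ V] [NormedAddCommGroup W] [NormedSpace ℝ W] [FiniteDimensional ℝ W]
    (h : finrank ℝ V = finrank ℝ W) {U : Set V} (hU : IsOpen U) {f : V → W}
    (hc : ContinuousOn f U) (hi : InjOn f U) : IsOpen (f '' U) := by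
  let E := EuclideanSpace ℝ (Fin (finrank ℝ V))
  have hV : finrank ℝ V = finrank ℝ E := by simp [E]
  have hW : finrank ℝ W = finrank ℝ E := h.symm.trans hV
  let a : V ≃L[ℝ] E := ContinuousLinearEquiv.ofFinrankEq hV
  let b : W ≃L[ℝ] E := ContinuousLinearEquiv.ofFinrankEq hW
  rw [isOpen_iff_mem_nhds]
  rintro _ ⟨x, hx, rfl⟩
  -- the conjugated map
  set g : E → E := fun y => b (f (a.symm y)) with hg
  have hUa : IsOpen (a.symm ⁻¹' U) := hU.preimage a.symm.continuous
  have hxa : a x ∈ a.symm ⁻¹' U := by simpa using hx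
  obtain ⟨r, hr, hball⟩ := Metric.nhds_basis_closedBall.mem_iff.mp (hUa.mem_nhds hxa)
  have h1 := Pool.Agent.Helper206.BoxS.IoD.image_mem_nhds g (a x) r hr
    (b.continuous.comp_continuousOn (hc.comp a.symm.continuous.continuousOn
      (fun y hy => hball hy)))
    (by
      intro y hy z hz hyz
      have h2 : f (a.symm y) = f (a.symm z) := b.injective hyz
      exact a.symm.injective (hi (hball hy) (hball hz) h2))
  have h2 : g (a x) = b (f x) := by simp [hg]
  rw [h2] at h1
  have h3 : b ⁻¹' (g '' closedBall (a x) r) ∈ 𝓝 (f x) := b.continuous.continuousAt h1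
  refine mem_of_superset h3 ?_
  rintro w ⟨y, hy, hyw⟩
  exact ⟨a.symm y, hball hy, b.injective hyw⟩

end Pool.Agent.V11270.HdL
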