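import Pool.Agent.V11270.HdL.IoD

/-!
# Slices: two lemmas on injective continuous maps restricted to parallel hyperplanes
-/

set_option autoImplicit false

open Metric Set Filter Topology Module

namespace Pool.Agent.V11270.HdL

/-- Lemma A: an injective continuous map sends non-empty relatively open parts of only countably
many slices `c = t` into a fixed affine hyperplane `φ = s`. -/
theorem countable_slices {X : Type*} [NormedAddCommGroup X] [NormedSpace ℝ X]
    [FiniteDimensional ℝ X] {c φ : X →ₗ[ℝ] ℝ} (hc : c ≠ 0) (hφ : φ ≠ 0) {e : X} (he : c e = 1)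
    {U : Set X} {f : X → X} (hf : ContinuousOn f U) (hi : InjOn f U) (s : ℝ) :
    {t : ℝ | ∃ D : Set (LinearMap.ker c), IsOpen D ∧ D.Nonempty ∧
      (∀ y ∈ D, t • e + (y : X) ∈ U) ∧ ∀ y ∈ D, φ (f (t • e + (y : X))) = s}.Countable := by
  set T := {t : ℝ | ∃ D : Set (LinearMap.ker c), IsOpen D ∧ D.Nonempty ∧
      (∀ y ∈ D, t • e + (y : X) ∈ U) ∧ ∀ y ∈ D, φ (f (t • e + (y : X))) = s} with hT
  rcases T.eq_empty_or_nonempty with h0 | ⟨t0, ht0⟩
  · rw [h0]
    exact countable_empty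
  obtain ⟨D0, -, ⟨y0, hy0⟩, -, hD0⟩ := ht0
  set b0 : X := f (t0 • e + (y0 : X)) with hb0
  have hb0s : φ b0 = s := hD0 y0 hy0
  have hfr : ∀ ψ : X →ₗ[ℝ] ℝ, ψ ≠ 0 → finrank ℝ (LinearMap.ker ψ) + 1 = finrank ℝ X := by
    intro ψ hψ
    have h1 := LinearMap.finrank_range_add_finrank_ker ψ
    have h2 : LinearMap.range ψ = ⊤ := LinearMap.range_eq_top.mpr (LinearMap.surjective hψ)
    rw [h2, finrank_top, finrank_self] at h1
    omega
  have hdim : finrank ℝ (LinearMap.ker c) = finrank ℝ (LinearMap.ker φ) := by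
    have := hfr c hc
    have := hfr φ hφ
    omega
  -- a retraction
  obtain ⟨π, hπ⟩ := (LinearMap.ker φ).subtype.exists_leftInverse_of_injective
    (LinearMap.ker_eq_bot.mpr (Submodule.subtype_injective _))
  have hπ' : ∀ z : LinearMap.ker φ, π (z : X) = z := fun z => LinearMap.congr_fun hπ z
  have hπc : Continuous π := π.continuous_of_finiteDimensional
  have hchoice : ∀ t : ℝ, ∃ D : Set (LinearMap.ker c), t ∈ T → IsOpen D ∧ D.Nonempty ∧
      (∀ y ∈ D, t • e + (y : X) ∈ U) ∧ ∀ y ∈ D, φ (f (t • e + (y : X))) = s := by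
    intro t
    by_cases ht : t ∈ T
    · obtain ⟨D, hD⟩ := ht
      exact ⟨D, fun _ => hD⟩
    · exact ⟨∅, fun h => absurd h ht⟩
  choose D hD using hchoice
  set g : ℝ → LinearMap.ker c → LinearMap.ker φ := fun t y => π (f (t • e + (y : X)) - b0) with hg
  have hval : ∀ t ∈ T, ∀ y ∈ D t, ((g t y : LinearMap.ker φ) : X) = f (t • e + (y : X)) - b0 := by
    intro t ht y hy
    have h1 : φ (f (t • e + (y : X)) - b0) = 0 := by
      rw [map_sub, (hD t ht).2.2.2 y hy, hb0s, sub_self]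
    have h2 := hπ' ⟨f (t • e + (y : X)) - b0, h1⟩
    show ((π (f (t • e + (y : X)) - b0) : LinearMap.ker φ) : X) = _
    rw [show f (t • e + (y : X)) - b0 =
      ((⟨f (t • e + (y : X)) - b0, h1⟩ : LinearMap.ker φ) : X) from rfl, h2]
  have hinj2 : ∀ t ∈ T, ∀ t' ∈ T, ∀ y ∈ D t, ∀ y' ∈ D t', g t y = g t' y' →
      t = t' ∧ y = y' := by
    intro t ht t' ht' y hy y' hy' h
    have h1 : f (t • e + (y : X)) = f (t' • e + (y' : X)) := by
      have h2 := hval t ht y hy
      rw [h, hval t' ht' y' hy'] at h2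
      exact (sub_left_injective h2).symm
    have h3 := hi ((hD t ht).2.2.1 y hy) ((hD t' ht').2.2.1 y' hy') h1
    have h4 := congrArg c h3
    have hy0 : c (y : X) = 0 := y.2
    have hy0' : c (y' : X) = 0 := y'.2
    rw [map_add, map_add, map_smul, map_smul, he, hy0, hy0'] at h4
    simp at h4
    refine ⟨h4, ?_⟩
    subst h4
    exact Subtype.ext (add_left_cancel h3)
  have hopen : ∀ t ∈ T, IsOpen (g t '' D t) := by
    intro t ht
    refine isOpen_image hdim (hD t ht).1 ?_ ?_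
    · refine hπc.comp_continuousOn (ContinuousOn.sub ?_ continuousOn_const)
      refine hf.comp (Continuous.continuousOn ?_) (fun y hy => (hD t ht).2.2.1 y hy)
      exact continuous_const.add continuous_subtype_val
    · intro y hy y' hy' h
      exact (hinj2 t ht t ht y hy y' hy' h).2
  refine Set.PairwiseDisjoint.countable_of_isOpen (s := fun t => g t '' D t) ?_ hopen ?_
  · intro t ht t' ht' hne
    rw [Function.onFun, Set.disjoint_left]
    rintro z ⟨y, hy, rfl⟩ ⟨y', hy', h⟩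
    exact hne (hinj2 t ht t' ht' y hy y' hy' h.symm).1
  · intro t ht
    exact (hD t ht).2.1.image _

/-- Density of rational matrices. -/
theorem exists_rat_mem {m n : ℕ} {V : Set (Fin m → Fin n → ℝ)} (hV : IsOpen V)
    (hne : V.Nonempty) : ∃ b : Fin m → Fin n → ℚ, (fun i j => (b i j : ℝ)) ∈ V := by
  obtain ⟨x, hx⟩ := hne
  obtain ⟨ε, hε, hball⟩ := Metric.isOpen_iff.mp hV x hx
  choose b hb using fun (i : Fin m) (j : Fin n) => exists_rat_near (x i j) hε
  refine ⟨b, hball ?_⟩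
  rw [mem_ball, dist_pi_lt_iff hε]
  intro i
  rw [dist_pi_lt_iff hε]
  intro j
  rw [Real.dist_eq, abs_sub_comm]
  exact hb i j

/-- Lemma B: a relatively open part of a slice cannot be mapped into the complement of a set
which contains all matrices with a rational column `j0` or a rational column `j1`. -/
theorem no_slice {m n : ℕ} {j0 j1 : Fin n} (hj : j0 ≠ j1) {O : Set (Fin m → Fin n → ℝ)}
    (h0 : ∀ (b : Fin m → ℚ) (B : Fin m → Fin n → ℝ), (∀ i, B i j0 = b i) → B ∈ O)
    (h1 : ∀ (b : Fin m → ℚ) (B : Fin m → Fin n → ℝ), (∀ i, B i j1 = b i) → B ∈ O)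
    {c : (Fin m → Fin n → ℝ) →ₗ[ℝ] ℝ} {e : Fin m → Fin n → ℝ} (he : c e = 1)
    {U : Set (Fin m → Fin n → ℝ)} (hU : IsOpen U)
    {f : (Fin m → Fin n → ℝ) → (Fin m → Fin n → ℝ)} (hf : ContinuousOn f U) (hi : InjOn f U)
    (t : ℝ) (D : Set (LinearMap.ker c)) (hD : IsOpen D) (hDne : D.Nonempty)
    (hDU : ∀ y ∈ D, t • e + (y : Fin m → Fin n → ℝ) ∈ U)
    (hDO : ∀ y ∈ D, f (t • e + (y : Fin m → Fin n → ℝ)) ∉ O) : False := by
  obtain ⟨y0, hy0⟩ := hDne
  set x0 : Fin m → Fin n → ℝ := t • e + (y0 : Fin m → Fin n → ℝ) with hx0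
  obtain ⟨r1, hr1, hb1⟩ := Metric.isOpen_iff.mp hU x0 (hDU y0 hy0)
  obtain ⟨r2, hr2, hb2⟩ := Metric.isOpen_iff.mp hD y0 hy0
  set r := min r1 r2 with hr
  have hrpos : 0 < r := lt_min hr1 hr2
  set B' := ball x0 r with hB'
  have hB'U : B' ⊆ U := (ball_subset_ball (min_le_left _ _)).trans hb1
  have hcc : Continuous c := c.continuous_of_finiteDimensional
  have hcx0 : c x0 = t := by
    have : c (y0 : Fin m → Fin n → ℝ) = 0 := y0.2
    rw [hx0, map_add, map_smul, he, this]
    simp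
  -- points of the slice in the ball
  have hslice : ∀ x ∈ B', c x = t → f x ∉ O := by
    intro x hx hcx
    have hxk : c (x - t • e) = 0 := by
      rw [map_sub, map_smul, he, hcx]
      simp
    have hy : (⟨x - t • e, hxk⟩ : LinearMap.ker c) ∈ D := by
      apply hb2
      rw [mem_ball, Subtype.dist_eq]
      have h2 : dist (x - t • e) (y0 : Fin m → Fin n → ℝ) = dist x x0 := by
        rw [dist_eq_norm, dist_eq_norm, hx0]
        congr 1
        abel
      show dist (x - t • e) (y0 : Fin m → Fin n → ℝ) < r2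
      rw [h2]
      exact lt_of_lt_of_le (mem_ball.mp hx) (min_le_right _ _)
    have h3 := hDO _ hy
    have h4 : t • e + (x - t • e) = x := by abel
    simpa [h4] using h3
  have hfB : ContinuousOn f B' := hf.mono hB'U
  have hiB : InjOn f B' := hi.mono hB'U
  have hW : IsOpen (f '' B') := isOpen_image rfl isOpen_ball hfB hiB
  set Bp := B' ∩ {x | t < c x} with hBp
  set Bm := B' ∩ {x | c x < t} with hBm
  have hWp : IsOpen (f '' Bp) := isOpen_image rfl
    (isOpen_ball.inter (isOpen_lt continuous_const hcc)) (hfB.mono inter_subset_left)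
    (hiB.mono inter_subset_left)
  have hWm : IsOpen (f '' Bm) := isOpen_image rfl
    (isOpen_ball.inter (isOpen_lt hcc continuous_const)) (hfB.mono inter_subset_left)
    (hiB.mono inter_subset_left)
  have hdisj : Disjoint (f '' Bp) (f '' Bm) := by
    rw [Set.disjoint_left]
    rintro z ⟨x, ⟨hx, hxt⟩, rfl⟩ ⟨x', ⟨hx', hxt'⟩, h⟩
    have := hiB hx' hx h
    subst this
    have h1 : t < c x' := hxt
    have h2 : c x' < t := hxt'
    exact absurd (lt_trans h1 h2) (lt_irrefl _)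
  have hx0B : x0 ∈ B' := mem_ball_self hrpos
  obtain ⟨ρ, hρ, hV⟩ := Metric.isOpen_iff.mp hW (f x0) (mem_image_of_mem f hx0B)
  set V := ball (f x0) ρ with hVdef
  -- both sides meet `V`
  have hline : ContinuousAt (fun s : ℝ => f (x0 + s • e)) 0 := by
    have h2 : ContinuousAt f (x0 + (0 : ℝ) • e) := by
      rw [zero_smul, add_zero]
      exact hfB.continuousAt (isOpen_ball.mem_nhds hx0B)
    exact ContinuousAt.comp (f := fun s : ℝ => x0 + s • e) h2
      (continuous_const.add (continuous_id.smul continuous_const)).continuousAt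
  have hev : ∀ᶠ s in 𝓝 (0 : ℝ), f (x0 + s • e) ∈ V ∧ x0 + s • e ∈ B' := by
    have h2 : f (x0 + (0 : ℝ) • e) = f x0 := by rw [zero_smul, add_zero]
    have h3 : V ∈ 𝓝 (f (x0 + (0 : ℝ) • e)) := by
      rw [h2]
      exact ball_mem_nhds _ hρ
    have h4 : ContinuousAt (fun s : ℝ => x0 + s • e) 0 :=
      (continuous_const.add (continuous_id.smul continuous_const)).continuousAt
    have h5 : B' ∈ 𝓝 (x0 + (0 : ℝ) • e) := by
      rw [zero_smul, add_zero]
      exact isOpen_ball.mem_nhds hx0B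
    exact (hline.eventually_mem h3).and (h4.eventually_mem h5)
  obtain ⟨ε, hε, hεb⟩ := Metric.eventually_nhds_iff.mp hev
  have hp := hεb (y := ε / 2) (by rw [Real.dist_eq, sub_zero, abs_of_pos (by linarith)]; linarith)
  have hm := hεb (y := -(ε / 2)) (by
    rw [Real.dist_eq, sub_zero, abs_neg, abs_of_pos (by linarith)]; linarith)
  have hcp : c (x0 + (ε / 2) • e) = t + ε / 2 := by
    rw [map_add, map_smul, he, hcx0]; simp
  have hcm : c (x0 + (-(ε / 2)) • e) = t - ε / 2 := by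
    rw [map_add, map_smul, he, hcx0]; simp; ring
  obtain ⟨b, hb⟩ := exists_rat_mem (isOpen_ball.inter hWp) (V := V ∩ f '' Bp)
    ⟨_, hp.1, _, ⟨hp.2, by show t < c _; rw [hcp]; linarith⟩, rfl⟩
  obtain ⟨b', hb'⟩ := exists_rat_mem (isOpen_ball.inter hWm) (V := V ∩ f '' Bm)
    ⟨_, hm.1, _, ⟨hm.2, by show c _ < t; rw [hcm]; linarith⟩, rfl⟩
  -- the two affine pieces
  have hcover : ∀ B ∈ V, B ∈ O → B ∈ f '' Bp ∪ f '' Bm := by
    intro B hB hBO
    obtain ⟨x, hx, rfl⟩ := hV hB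
    rcases lt_trichotomy (c x) t with h | h | h
    · exact Or.inr ⟨x, ⟨hx, h⟩, rfl⟩
    · exact absurd hBO (hslice x hx h)
    · exact Or.inl ⟨x, ⟨hx, h⟩, rfl⟩
  have hconv : ∀ (j : Fin n) (w : Fin m → ℝ), Convex ℝ {B : Fin m → Fin n → ℝ | ∀ i, B i j = w i} := by
    intro j w x hx y hy α β _ _ hαβ i
    show α * x i j + β * y i j = w i
    rw [hx i, hy i, ← add_mul, hαβ, one_mul]
  have hL1 : IsPreconnected (V ∩ {B : Fin m → Fin n → ℝ | ∀ i, B i j0 = (b i j0 : ℝ)}) :=
    ((convex_ball _ _).inter (hconv j0 _)).isPreconnected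
  have hL2 : IsPreconnected (V ∩ {B : Fin m → Fin n → ℝ | ∀ i, B i j1 = (b' i j1 : ℝ)}) :=
    ((convex_ball _ _).inter (hconv j1 _)).isPreconnected
  have hmem1 : (fun i j => (b i j : ℝ)) ∈
      V ∩ {B : Fin m → Fin n → ℝ | ∀ i, B i j0 = (b i j0 : ℝ)} := ⟨hb.1, fun i => rfl⟩
  have hmem2 : (fun i j => (b' i j : ℝ)) ∈
      V ∩ {B : Fin m → Fin n → ℝ | ∀ i, B i j1 = (b' i j1 : ℝ)} := ⟨hb'.1, fun i => rfl⟩
  have hs1 := hL1.subset_left_of_subset_union hWp hWm hdisj
    (fun B hB => hcover B hB.1 (h0 (fun i => b i j0) B hB.2))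
    ⟨_, hmem1, hb.2⟩
  have hs2 := hL2.subset_right_of_subset_union hWp hWm hdisj
    (fun B hB => hcover B hB.1 (h1 (fun i => b' i j1) B hB.2))
    ⟨_, hmem2, hb'.2⟩
  -- the common point
  set Bs : Fin m → Fin n → ℝ := fun i j => if j = j0 then (b i j : ℝ) else (b' i j : ℝ) with hBs
  have hBsV : Bs ∈ V := by
    have hbV := hb.1
    have hbV' := hb'.1
    rw [hVdef, mem_ball, dist_pi_lt_iff hρ] at hbV hbV' ⊢
    intro i
    have h2 := hbV i
    have h3 := hbV' i
    rw [dist_pi_lt_iff hρ] at h2 h3 ⊢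
    intro j
    by_cases h4 : j = j0
    · simpa [hBs, h4] using h2 j0
    · simpa [hBs, h4] using h3 j
  have h2 := hs1 ⟨hBsV, fun i => by simp [hBs]⟩
  have h3 := hs2 ⟨hBsV, fun i => by simp [hBs, hj.symm]⟩
  exact Set.disjoint_left.mp hdisj h2 h3

end Pool.Agent.V11270.HdL
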